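import Pool.Agent.NA.Stmts

/-! Row TRE of squad NA: the slopes of the tree tend to the derivative (helper40). -/

set_option autoImplicit false

open Finset Filter Topology MeasureTheory

noncomputable section

namespace Pool.Agent.NA.H40

open Pool.Agent.BC Pool.Agent.NA

theorem two_pow_le {M L : ℕ → ℕ} (h0 : L 0 = 1) (hL : ∀ k, L (k + 1) = L k * M k)
    (hM : ∀ k, 2 ≤ M k) : ∀ k, 2 ^ k ≤ L k := by
  intro k
  induction k with
  | zero => rw [h0, pow_zero]
  | succ k ih =>
    rw [hL, pow_succ]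
    exact Nat.mul_le_mul ih (hM k)

theorem tre (tra : TraStmt) : TreStmt := by
  intro X _ _ _ Z M L y hZ hL0 hL hM hy hsum
  obtain ⟨g, hg1, hg2, hg3⟩ := tra X Z M L y hZ hL0 hL hM hy hsum
  refine ⟨g, hg1, hg2, fun t ht hd => ⟨deriv g t, ?_⟩⟩
  have hder := hd.hasDerivAt
  rw [Metric.tendsto_atTop]
  intro ε hε
  have h1 : ∀ᶠ x in 𝓝 t, ‖g x - g t - (x - t) • deriv g t‖ ≤ ε / 2 * ‖x - t‖ :=
    (hasDerivAt_iff_isLittleO.1 hder).def (half_pos hε)
  obtain ⟨δ, hδ, h2⟩ := Metric.eventually_nhds_iff.1 h1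
  obtain ⟨N, hN⟩ := exists_nat_gt (1 / δ)
  refine ⟨N, fun k hk => ?_⟩
  have hp := two_pow_le hL0 hL hM k
  have hLk : (N : ℝ) < L k := by
    have h3 : N < L k := (hk.trans_lt k.lt_two_pow_self).trans_le hp
    exact_mod_cast h3
  have hLpos : (0 : ℝ) < L k := (Nat.cast_nonneg N).trans_lt hLk
  have hLδ : 1 / (L k : ℝ) < δ := by
    rw [div_lt_iff₀ hLpos]
    have h4 := (div_lt_iff₀ hδ).1 (hN.trans hLk)
    linarith
  set i := ⌊t * L k⌋₊ with hi
  have ht0 : 0 ≤ t * L k := mul_nonneg ht.1.le hLpos.le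
  have hi1 : (i : ℝ) ≤ t * L k := Nat.floor_le ht0
  have hi2 : t * L k < i + 1 := Nat.lt_floor_add_one _
  have hiL : i < L k := by
    have h5 : (i : ℝ) < L k := by
      have h6 : t * L k < 1 * L k := mul_lt_mul_of_pos_right ht.2 hLpos
      linarith
    exact_mod_cast h5
  have hy1 := hg3 k i hiL
  set a : ℝ := (i : ℝ) / L k with ha
  set b : ℝ := ((i : ℝ) + 1) / L k with hb
  have hat : a ≤ t := by rw [ha, div_le_iff₀ hLpos]; exact hi1
  have htb : t ≤ b := by rw [hb, le_div_iff₀ hLpos]; exact hi2.le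
  have hab : b - a = 1 / L k := by rw [ha, hb]; ring
  have h7 : ‖g b - g t - (b - t) • deriv g t‖ ≤ ε / 2 * (b - t) := by
    have h8 := h2 (y := b) (by rw [Real.dist_eq, abs_of_nonneg (by linarith)]; linarith)
    rwa [Real.norm_eq_abs, abs_of_nonneg (by linarith)] at h8
  have h9 : ‖g a - g t - (a - t) • deriv g t‖ ≤ ε / 2 * (t - a) := by
    have h8 := h2 (y := a) (by rw [Real.dist_eq, abs_of_nonpos (by linarith)]; linarith)
    rwa [Real.norm_eq_abs, abs_of_nonpos (by linarith), neg_sub] at h8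
  have h10 : y k i - deriv g t = (L k : ℝ) • ((g b - g t - (b - t) • deriv g t) -
      (g a - g t - (a - t) • deriv g t)) := by
    have e1 : (g b - g t - (b - t) • deriv g t) - (g a - g t - (a - t) • deriv g t) =
        (g b - g a) - (b - a) • deriv g t := by
      rw [sub_smul, sub_smul, sub_smul]
      abel
    rw [e1, smul_sub, hy1, hab, smul_smul, mul_one_div_cancel hLpos.ne', one_smul]
  rw [dist_eq_norm, h10, norm_smul, Real.norm_eq_abs, abs_of_pos hLpos]
  have h11 := norm_sub_le (g b - g t - (b - t) • deriv g t) (g a - g t - (a - t) • deriv g t)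
  have h12 : ‖(g b - g t - (b - t) • deriv g t) - (g a - g t - (a - t) • deriv g t)‖ ≤
      ε / 2 * (1 / L k) := by
    rw [← hab]
    linarith
  calc (L k : ℝ) * ‖(g b - g t - (b - t) • deriv g t) - (g a - g t - (a - t) • deriv g t)‖
      ≤ L k * (ε / 2 * (1 / L k)) := mul_le_mul_of_nonneg_left h12 hLpos.le
    _ = ε / 2 := by field_simp
    _ < ε := half_lt_self hε

end Pool.Agent.NA.H40
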